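import Pool.Agent.H29.RS.Targets
import Pool.Agent.H87.RT.EUL

/-!
# Orders of zeros modulo `m` (energy method, integer dilations): module EUS, the ratio of two
values of an Euler product
-/

set_option autoImplicit false

open MeasureTheory Set Filter Topology

namespace Pool.Agent.H27.RS

open Pool.Agent.H29.RT Pool.Agent.H29.RS Pool.Agent.H87.RT

/-- the hypotheses on the coefficients -/
structure HB (b : ℕ → ℝ) (A : ℕ) (w : ℕ → ℕ → ℝ) (C θ : ℝ) : Prop where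
  nn : ∀ k, 0 ≤ b k
  one : b 1 = 1
  mul : ∀ m n : ℕ, Nat.Coprime m n → b (m * n) = b m * b n
  t0 : 0 < θ
  t1 : θ < 1
  lo : ∀ p : ℕ, p.Prime → ∀ v : ℕ, 1 ≤ v → v ≤ A → 0 ≤ w v p ∧ w v p ≤ C ∧
      |b (p ^ v) / (p : ℝ) ^ v - w v p / p| ≤ C * (p : ℝ) ^ (-(3 / 2) : ℝ)
  hi : ∀ p : ℕ, p.Prime → ∀ v : ℕ, A < v →
      b (p ^ v) / (p : ℝ) ^ v ≤ C * (p : ℝ) ^ (-(3 / 2) : ℝ) * θ ^ v
  C0 : 0 ≤ C

variable {b : ℕ → ℝ} {A : ℕ} {w : ℕ → ℕ → ℝ} {C θ : ℝ}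

/-- the main part of the logarithm of a local factor -/
noncomputable def Mp (A : ℕ) (w : ℕ → ℕ → ℝ) (σ : ℝ) (p : ℕ) : ℝ :=
  ∑ v ∈ Finset.Icc 1 A, w v p * (p : ℝ) ^ (-(1 + v * σ) : ℝ)

/-- the power of a prime in the series -/
lemma ft_pow (b : ℕ → ℝ) (σ : ℝ) {p : ℕ} (hp : 0 < p) (v : ℕ) :
    ft b σ (p ^ v) = b (p ^ v) / (p : ℝ) ^ v * (p : ℝ) ^ (-(v * σ) : ℝ) := by
  have hp0 : (0 : ℝ) < p := by exact_mod_cast hp
  unfold ft
  have h1 : (((p ^ v : ℕ) : ℝ)) ^ (-(1 + σ) : ℝ) = ((p : ℝ) ^ v)⁻¹ * (p : ℝ) ^ (-(v * σ) : ℝ) := by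
    rw [Nat.cast_pow, ← Real.rpow_natCast, ← Real.rpow_mul hp0.le, ← Real.rpow_neg hp0.le,
      ← Real.rpow_add hp0]
    congr 1
    ring
  rw [h1, div_eq_mul_inv]
  ring

lemma rpow_le_one' {σ : ℝ} (hσ : 0 ≤ σ) {p : ℕ} (hp : 0 < p) (v : ℕ) :
    (p : ℝ) ^ (-(v * σ) : ℝ) ≤ 1 := by
  have hp1 : (1 : ℝ) ≤ p := by exact_mod_cast hp
  refine Real.rpow_le_one_of_one_le_of_nonpos hp1 ?_
  have : 0 ≤ (v : ℝ) * σ := by positivity
  linarith

lemma ft_pow_nonneg (H : HB b A w C θ) (σ : ℝ) (p v : ℕ) : 0 ≤ ft b σ (p ^ v) :=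
  ft_nonneg H.nn σ _

/-- the terms beyond `A` -/
lemma ft_hi (H : HB b A w C θ) {σ : ℝ} (hσ : 0 ≤ σ) {p : ℕ} (hp : p.Prime) {v : ℕ} (hv : A < v) :
    ft b σ (p ^ v) ≤ C * (p : ℝ) ^ (-(3 / 2) : ℝ) * θ ^ v := by
  rw [ft_pow b σ hp.pos]
  have h1 := H.hi p hp v hv
  have h2 := rpow_le_one' hσ hp.pos v
  have h3 : 0 ≤ b (p ^ v) / (p : ℝ) ^ v := div_nonneg (H.nn _) (by positivity)
  exact (mul_le_of_le_one_right h3 h2).trans h1

/-- the tail of a local factor -/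
noncomputable def Tp (b : ℕ → ℝ) (A : ℕ) (σ : ℝ) (p : ℕ) : ℝ := ∑' e : ℕ, ft b σ (p ^ (e + (A + 1)))

lemma summable_theta (H : HB b A w C θ) : Summable fun e : ℕ => θ ^ e :=
  summable_geometric_of_lt_one H.t0.le H.t1

lemma summable_ft_pow (H : HB b A w C θ) {σ : ℝ} (hσ : 0 ≤ σ) {p : ℕ} (hp : p.Prime) :
    Summable fun e : ℕ => ft b σ (p ^ e) := by
  rw [← summable_nat_add_iff (A + 1)]
  refine Summable.of_nonneg_of_le (fun e => ft_pow_nonneg H σ p _)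
    (fun e => ft_hi H hσ hp (by omega : A < e + (A + 1))) ?_
  exact ((summable_nat_add_iff (A + 1)).2 (summable_theta H)).mul_left _

lemma Sp_eq (H : HB b A w C θ) {σ : ℝ} (hσ : 0 ≤ σ) {p : ℕ} (hp : p.Prime) :
    Sp b σ p = 1 + ((∑ v ∈ Finset.Icc 1 A, ft b σ (p ^ v)) + Tp b A σ p) := by
  have hs := summable_ft_pow H hσ hp
  have h1 := hs.sum_add_tsum_nat_add (A + 1)
  unfold Sp Tp
  rw [← h1, Finset.sum_range_succ', pow_zero, ft_one H.one]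
  have h2 : ∑ k ∈ Finset.range A, ft b σ (p ^ (k + 1)) = ∑ v ∈ Finset.Icc 1 A, ft b σ (p ^ v) := by
    rw [Finset.range_eq_Ico, Finset.sum_Ico_add' (fun v => ft b σ (p ^ v)) 0 A 1]
    congr 1
  rw [h2]
  ring

/-- the constant of the bounds -/
noncomputable def C1 (A : ℕ) (C θ : ℝ) : ℝ := 2 * C * A + C / (1 - θ)

lemma Tp_bounds (H : HB b A w C θ) {σ : ℝ} (hσ : 0 ≤ σ) {p : ℕ} (hp : p.Prime) :
    0 ≤ Tp b A σ p ∧ Tp b A σ p ≤ C / (1 - θ) * (p : ℝ) ^ (-(3 / 2) : ℝ) := by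
  have hs := summable_ft_pow H hσ hp
  refine ⟨tsum_nonneg fun e => ft_pow_nonneg H σ p _, ?_⟩
  have h1 : Tp b A σ p ≤ ∑' e : ℕ, C * (p : ℝ) ^ (-(3 / 2) : ℝ) * θ ^ e := by
    unfold Tp
    refine Summable.tsum_le_tsum (fun e => ?_) ((summable_nat_add_iff (A + 1)).2 hs)
      ((summable_theta H).mul_left _)
    refine (ft_hi H hσ hp (by omega : A < e + (A + 1))).trans ?_
    have h0 : 0 ≤ C * (p : ℝ) ^ (-(3 / 2) : ℝ) := mul_nonneg H.C0 (by positivity)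
    refine mul_le_mul_of_nonneg_left ?_ h0
    exact pow_le_pow_of_le_one H.t0.le H.t1.le (by omega)
  rw [tsum_mul_left, tsum_geometric_of_lt_one H.t0.le H.t1] at h1
  refine h1.trans (le_of_eq ?_)
  rw [div_eq_mul_inv]
  ring

lemma rpow_split (σ : ℝ) {p : ℕ} (hp : 0 < p) (v : ℕ) :
    (p : ℝ) ^ (-(1 + v * σ) : ℝ) = (p : ℝ)⁻¹ * (p : ℝ) ^ (-(v * σ) : ℝ) := by
  have hp0 : (0 : ℝ) < p := by exact_mod_cast hp
  rw [show (-(1 + v * σ) : ℝ) = -1 + -(v * σ) by ring, Real.rpow_add hp0, Real.rpow_neg_one]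

/-- each of the first terms -/
lemma ft_lo (H : HB b A w C θ) {σ : ℝ} (hσ : 0 ≤ σ) {p : ℕ} (hp : p.Prime) {v : ℕ} (h1v : 1 ≤ v)
    (hv : v ≤ A) : |ft b σ (p ^ v) - w v p * (p : ℝ) ^ (-(1 + v * σ) : ℝ)| ≤
      C * (p : ℝ) ^ (-(3 / 2) : ℝ) := by
  obtain ⟨-, -, h3⟩ := H.lo p hp v h1v hv
  rw [ft_pow b σ hp.pos, rpow_split σ hp.pos]
  have h2 := rpow_le_one' hσ hp.pos v
  have h4 : 0 ≤ (p : ℝ) ^ (-(v * σ) : ℝ) := by positivity
  have h5 : b (p ^ v) / (p : ℝ) ^ v * (p : ℝ) ^ (-(v * σ) : ℝ) -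
      w v p * ((p : ℝ)⁻¹ * (p : ℝ) ^ (-(v * σ) : ℝ)) =
      (b (p ^ v) / (p : ℝ) ^ v - w v p / p) * (p : ℝ) ^ (-(v * σ) : ℝ) := by
    rw [div_eq_mul_inv (w v p)]
    ring
  rw [h5, abs_mul, abs_of_nonneg h4]
  exact (mul_le_of_le_one_right (abs_nonneg _) h2).trans h3

lemma rpow_3_2_le {p : ℕ} (hp : 0 < p) : (p : ℝ) ^ (-(3 / 2) : ℝ) ≤ (p : ℝ)⁻¹ := by
  have hp1 : (1 : ℝ) ≤ p := by exact_mod_cast hp
  rw [← Real.rpow_neg_one]
  exact Real.rpow_le_rpow_of_exponent_le hp1 (by norm_num)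

/-- bound for the local factor minus one, with a saving -/
lemma Sp_sub_one (H : HB b A w C θ) {σ : ℝ} (hσ : 0 ≤ σ) {p : ℕ} (hp : p.Prime) :
    0 ≤ Sp b σ p - 1 ∧ |Sp b σ p - 1 - Mp A w σ p| ≤ C1 A C θ * (p : ℝ) ^ (-(3 / 2) : ℝ) ∧
      0 ≤ Mp A w σ p ∧ Mp A w σ p ≤ C * A * (p : ℝ) ^ (-(1 + σ) : ℝ) := by
  have hp0 : (0 : ℝ) < p := by exact_mod_cast hp.pos
  have hp1 : (1 : ℝ) ≤ p := by exact_mod_cast hp.pos
  obtain ⟨hT0, hT1⟩ := Tp_bounds H hσ hp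
  rw [Sp_eq H hσ hp]
  have e1 : 0 ≤ ∑ v ∈ Finset.Icc 1 A, ft b σ (p ^ v) :=
    Finset.sum_nonneg fun v _ => ft_pow_nonneg H σ p v
  refine ⟨by linarith, ?_, ?_, ?_⟩
  · have e2 : |(∑ v ∈ Finset.Icc 1 A, ft b σ (p ^ v)) - Mp A w σ p| ≤
        C * A * (p : ℝ) ^ (-(3 / 2) : ℝ) := by
      unfold Mp
      rw [← Finset.sum_sub_distrib]
      refine (Finset.abs_sum_le_sum_abs _ _).trans ?_
      refine (Finset.sum_le_sum fun v hv => ft_lo H hσ hp (Finset.mem_Icc.1 hv).1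
        (Finset.mem_Icc.1 hv).2).trans ?_
      rw [Finset.sum_const, Nat.card_Icc, Nat.add_sub_cancel, nsmul_eq_mul]
      exact le_of_eq (by ring)
    have e3 : 1 + ((∑ v ∈ Finset.Icc 1 A, ft b σ (p ^ v)) + Tp b A σ p) - 1 - Mp A w σ p =
        ((∑ v ∈ Finset.Icc 1 A, ft b σ (p ^ v)) - Mp A w σ p) + Tp b A σ p := by ring
    rw [e3]
    refine (abs_add_le _ _).trans ?_
    rw [abs_of_nonneg hT0]
    have e4 : 0 ≤ C * A * (p : ℝ) ^ (-(3 / 2) : ℝ) :=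
      mul_nonneg (mul_nonneg H.C0 (Nat.cast_nonneg _)) (by positivity)
    have e5 : C1 A C θ * (p : ℝ) ^ (-(3 / 2) : ℝ) = C * A * (p : ℝ) ^ (-(3 / 2) : ℝ) +
        C * A * (p : ℝ) ^ (-(3 / 2) : ℝ) + C / (1 - θ) * (p : ℝ) ^ (-(3 / 2) : ℝ) := by
      unfold C1
      ring
    rw [e5]
    linarith
  · unfold Mp
    refine Finset.sum_nonneg fun v hv => ?_
    have := (H.lo p hp v (Finset.mem_Icc.1 hv).1 (Finset.mem_Icc.1 hv).2).1
    exact mul_nonneg this (by positivity)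
  · unfold Mp
    have e2 : ∀ v ∈ Finset.Icc 1 A, w v p * (p : ℝ) ^ (-(1 + v * σ) : ℝ) ≤
        C * (p : ℝ) ^ (-(1 + σ) : ℝ) := by
      intro v hv
      obtain ⟨hv1, hv2⟩ := Finset.mem_Icc.1 hv
      obtain ⟨h1, h2, -⟩ := H.lo p hp v hv1 hv2
      refine mul_le_mul h2 ?_ (by positivity) H.C0
      refine Real.rpow_le_rpow_of_exponent_le hp1 ?_
      have : (1 : ℝ) ≤ v := by exact_mod_cast hv1
      nlinarith
    refine (Finset.sum_le_sum e2).trans ?_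
    rw [Finset.sum_const, Nat.card_Icc, Nat.add_sub_cancel, nsmul_eq_mul]
    exact le_of_eq (by ring)

lemma C1_nonneg (H : HB b A w C θ) : 0 ≤ C1 A C θ := by
  unfold C1
  have h1 := H.C0
  have h2 := H.t1
  have h3 : 0 ≤ C / (1 - θ) := div_nonneg h1 (by linarith)
  positivity

/-- the remainder of the logarithm -/
noncomputable def Er (b : ℕ → ℝ) (A : ℕ) (w : ℕ → ℕ → ℝ) (σ : ℝ) (p : ℕ) : ℝ :=
  Real.log (Sp b σ p) - Mp A w σ p

/-- the constant of the remainder -/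
noncomputable def C2 (A : ℕ) (C θ : ℝ) : ℝ := (C1 A C θ + C * A) ^ 2 + C1 A C θ

lemma Er_bound (H : HB b A w C θ) {σ : ℝ} (hσ : 0 ≤ σ) {p : ℕ} (hp : p.Prime) :
    |Er b A w σ p| ≤ C2 A C θ * (p : ℝ) ^ (-(3 / 2) : ℝ) := by
  have hp0 : (0 : ℝ) < p := by exact_mod_cast hp.pos
  have hp1 : (1 : ℝ) ≤ p := by exact_mod_cast hp.pos
  obtain ⟨h1, h2, h3, h4⟩ := Sp_sub_one H hσ hp
  obtain ⟨y, hy⟩ : ∃ y, y = Sp b σ p - 1 := ⟨_, rfl⟩
  have hS : Sp b σ p = 1 + y := by rw [hy]; ring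
  rw [← hy] at h1 h2
  have h5 := log_sub_le h1
  have hC1 := C1_nonneg H
  have hCA : 0 ≤ C * A := mul_nonneg H.C0 (Nat.cast_nonneg _)
  have h6 : y ≤ (C1 A C θ + C * A) * (p : ℝ)⁻¹ := by
    have e1 := (abs_le.1 h2).2
    have e2 : C1 A C θ * (p : ℝ) ^ (-(3 / 2) : ℝ) ≤ C1 A C θ * (p : ℝ)⁻¹ :=
      mul_le_mul_of_nonneg_left (rpow_3_2_le hp.pos) hC1
    have e3 : C * A * (p : ℝ) ^ (-(1 + σ) : ℝ) ≤ C * A * (p : ℝ)⁻¹ := by
      refine mul_le_mul_of_nonneg_left ?_ hCA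
      rw [← Real.rpow_neg_one]
      exact Real.rpow_le_rpow_of_exponent_le hp1 (by linarith)
    linarith
  have h7 : y ^ 2 ≤ (C1 A C θ + C * A) ^ 2 * (p : ℝ) ^ (-(3 / 2) : ℝ) := by
    have e1 : y ^ 2 ≤ ((C1 A C θ + C * A) * (p : ℝ)⁻¹) ^ 2 := pow_le_pow_left₀ h1 h6 2
    rw [mul_pow] at e1
    refine e1.trans (mul_le_mul_of_nonneg_left ?_ (by positivity))
    have e2 : ((p : ℝ)⁻¹) ^ 2 = (p : ℝ) ^ (-2 : ℝ) := by
      rw [← Real.rpow_neg_one, ← Real.rpow_natCast, ← Real.rpow_mul hp0.le]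
      norm_num
    rw [e2]
    exact Real.rpow_le_rpow_of_exponent_le hp1 (by norm_num)
  unfold Er
  rw [hS]
  have h8 : Real.log (1 + y) - Mp A w σ p = (Real.log (1 + y) - y) + (y - Mp A w σ p) := by ring
  rw [h8]
  refine (abs_add_le _ _).trans ?_
  have h9 : C2 A C θ * (p : ℝ) ^ (-(3 / 2) : ℝ) = (C1 A C θ + C * A) ^ 2 * (p : ℝ) ^ (-(3 / 2) : ℝ) +
      C1 A C θ * (p : ℝ) ^ (-(3 / 2) : ℝ) := by
    unfold C2
    ring
  rw [h9]
  exact add_le_add (h5.trans h7) h2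

lemma summable_32 : Summable fun p : Nat.Primes => ((p : ℕ) : ℝ) ^ (-(3 / 2) : ℝ) :=
  Nat.Primes.summable_rpow.2 (by norm_num)

lemma summable_1s {t : ℝ} (ht : 0 < t) : Summable fun p : Nat.Primes => ((p : ℕ) : ℝ) ^ (-(1 + t) : ℝ) :=
  Nat.Primes.summable_rpow.2 (by linarith)

/-- the series of the local factors minus one -/
lemma summable_Sp_sub (H : HB b A w C θ) {σ : ℝ} (hσ : 0 < σ) :
    Summable fun p : Nat.Primes => Sp b σ p - 1 := by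
  refine Summable.of_nonneg_of_le (fun p => (Sp_sub_one H hσ.le p.2).1) (fun p => ?_)
    ((summable_32.mul_left (C1 A C θ)).add ((summable_1s hσ).mul_left (C * A)))
  obtain ⟨h1, h2, h3, h4⟩ := Sp_sub_one H hσ.le p.2
  have e1 := (abs_le.1 h2).2
  linarith

/-- the series converges for positive `σ` -/
lemma ft_summable' (H : HB b A w C θ) {σ : ℝ} (hσ : 0 < σ) : Summable (ft b σ) := by
  have hs := summable_Sp_sub H hσ
  refine summable_of_sum_range_le (c := Real.exp (∑' p : Nat.Primes, (Sp b σ p - 1)))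
    (fun k => ft_nonneg H.nn σ k) fun N => ?_
  have hsum : ∀ {p : ℕ}, p.Prime → Summable (fun n : ℕ => ‖ft b σ (p ^ n)‖) := by
    intro p hp
    refine (summable_ft_pow H hσ.le hp).congr fun n => ?_
    rw [Real.norm_eq_abs, abs_of_nonneg (ft_nonneg H.nn σ _)]
  obtain ⟨h1, h2⟩ := EulerProduct.summable_and_hasSum_smoothNumbers_prod_primesBelow_tsum
    (f := ft b σ) (ft_one H.one σ) (fun {m n} h => ft_mul H.mul σ h) hsum N
  have h3 : ∑ k ∈ Finset.range N, ft b σ k ≤ ∏ p ∈ N.primesBelow, ∑' n : ℕ, ft b σ (p ^ n) := by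
    have e1 : ∑ k ∈ Finset.range N, ft b σ k = ∑ k ∈ (Finset.range N).erase 0, ft b σ k := by
      rcases Nat.eq_zero_or_pos N with hN | hN
      · subst hN; simp
      · rw [← Finset.add_sum_erase _ _ (Finset.mem_range.2 hN), ft_zero b hσ.le, zero_add]
    have e2 : ∀ k ∈ (Finset.range N).erase 0, k ∈ N.smoothNumbers := by
      intro k hk
      rw [Finset.mem_erase, Finset.mem_range] at hk
      exact Nat.mem_smoothNumbers_of_lt (Nat.pos_of_ne_zero hk.1) hk.2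
    rw [e1, ← h2.tsum_eq]
    have e3 : ∑ k ∈ (Finset.range N).erase 0, ft b σ k =
        ∑ k ∈ ((Finset.range N).erase 0).subtype (· ∈ N.smoothNumbers), ft b σ k := by
      rw [Finset.sum_subtype_of_mem (fun k => ft b σ k) e2]
    rw [e3]
    exact h2.summable.sum_le_tsum _ fun k _ => ft_nonneg H.nn σ _
  refine h3.trans ?_
  have h4 : ∏ p ∈ N.primesBelow, ∑' n : ℕ, ft b σ (p ^ n) ≤
      Real.exp (∑ p ∈ N.primesBelow, (Sp b σ p - 1)) := by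
    rw [Real.exp_sum]
    refine Finset.prod_le_prod (fun p _ => tsum_nonneg fun n => ft_nonneg H.nn σ _) fun p _ => ?_
    have := Real.add_one_le_exp (Sp b σ p - 1)
    rw [sub_add_cancel] at this
    exact this
  refine h4.trans (Real.exp_le_exp.2 ?_)
  have e2 : ∀ p ∈ N.primesBelow, p.Prime := fun p hp => (Nat.mem_primesBelow.1 hp).2
  have e3 : ∑ p ∈ N.primesBelow, (Sp b σ p - 1) =
      ∑ p ∈ (N.primesBelow).subtype (fun p => p.Prime), (Sp b σ p - 1) := by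
    rw [Finset.sum_subtype_of_mem (fun p => Sp b σ p - 1) e2]
  rw [e3]
  have e4 : ∀ F : Finset Nat.Primes, ∑ p ∈ F, (Sp b σ p - 1) ≤ ∑' p : Nat.Primes, (Sp b σ p - 1) :=
    fun F => hs.sum_le_tsum F fun p _ => (Sp_sub_one H hσ.le p.2).1
  exact e4 _

lemma hasSum_log' (H : HB b A w C θ) {σ : ℝ} (hσ : 0 < σ) : 0 < ∑' k, ft b σ k ∧
    HasSum (fun p : Nat.Primes => Real.log (Sp b σ p)) (Real.log (∑' k, ft b σ k)) := by
  have hs := ft_summable' H hσ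
  have h1 : HasProd (fun p : Nat.Primes => Sp b σ p) (∑' k, ft b σ k) :=
    EulerProduct.eulerProduct_hasProd (ft_one H.one σ) (fun {m n} h => ft_mul H.mul σ h)
      (by simpa [Real.norm_eq_abs, abs_of_nonneg (ft_nonneg H.nn σ _)] using hs) (ft_zero b hσ.le)
  have h2 : 0 < ∑' k, ft b σ k := by
    have h3 : ft b σ 1 ≤ ∑' k, ft b σ k := hs.le_tsum 1 fun k _ => ft_nonneg H.nn σ k
    rw [ft_one H.one] at h3
    linarith
  refine ⟨h2, ?_⟩
  have h4 := Filter.Tendsto.log h1 h2.ne'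
  refine Tendsto.congr (fun s => ?_) h4
  rw [Real.log_prod]
  intro p _
  have := (Sp_sub_one H hσ.le p.2).1
  linarith

lemma tendsto_Mp (s : ℕ) {p : ℕ} (hp : 0 < p) :
    Tendsto (fun L : ℝ => Mp A w (s / L) p) atTop (𝓝 (Mp A w 0 p)) := by
  have hp0 : (0 : ℝ) < p := by exact_mod_cast hp
  have h1 : Tendsto (fun L : ℝ => (s : ℝ) / L) atTop (𝓝 0) := tendsto_const_nhds.div_atTop tendsto_id
  have h2 : Continuous fun x : ℝ => Mp A w x p := by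
    unfold Mp
    refine continuous_finsetSum _ fun v _ => continuous_const.mul ?_
    exact Real.continuous_const_rpow hp0.ne' |>.comp (by fun_prop)
  exact (h2.tendsto 0).comp h1

lemma tendsto_Er (H : HB b A w C θ) (s : ℕ) {p : ℕ} (hp : p.Prime) :
    Tendsto (fun L : ℝ => Er b A w (s / L) p) atTop (𝓝 (Er b A w 0 p)) := by
  have h1 : Tendsto (fun L : ℝ => Sp b (s / L) p) atTop (𝓝 (Sp b 0 p)) := by
    have e1 : Tendsto (fun L : ℝ => 1 + ((∑ v ∈ Finset.Icc 1 A, ft b (s / L) (p ^ v)) +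
        Tp b A (s / L) p)) atTop (𝓝 (1 + ((∑ v ∈ Finset.Icc 1 A, ft b 0 (p ^ v)) +
        Tp b A 0 p))) := by
      refine tendsto_const_nhds.add (Tendsto.add ?_ ?_)
      · exact tendsto_finsetSum _ fun v _ => tendsto_ft s (p ^ v) (Nat.one_le_pow _ _ hp.pos)
      · unfold Tp
        refine tendsto_tsum_of_dominated_convergence
          (((summable_nat_add_iff (A + 1)).2 (summable_theta H)).mul_left
            (C * (p : ℝ) ^ (-(3 / 2) : ℝ))) (fun e => ?_) ?_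
        · exact tendsto_ft s (p ^ (e + (A + 1))) (Nat.one_le_pow _ _ hp.pos)
        · filter_upwards [eventually_gt_atTop 0] with L hL e
          have hσ : 0 ≤ (s : ℝ) / L := by positivity
          rw [Real.norm_eq_abs, abs_of_nonneg (ft_nonneg H.nn _ _)]
          exact ft_hi H hσ hp (by omega)
    rw [← Sp_eq H le_rfl hp] at e1
    refine Tendsto.congr' ?_ e1
    filter_upwards [eventually_gt_atTop 0] with L hL
    have hσ : 0 ≤ (s : ℝ) / L := by positivity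
    exact (Sp_eq H hσ hp).symm
  unfold Er
  have h2 : Sp b 0 p ≠ 0 := by
    have := (Sp_sub_one H le_rfl hp).1
    intro h
    linarith
  exact (h1.log h2).sub (tendsto_Mp s hp.pos)

lemma tendsto_sum_Er (H : HB b A w C θ) (s : ℕ) :
    Tendsto (fun L : ℝ => ∑' p : Nat.Primes, Er b A w (s / L) p) atTop
      (𝓝 (∑' p : Nat.Primes, Er b A w 0 p)) := by
  refine tendsto_tsum_of_dominated_convergence
    (summable_32.mul_left (C2 A C θ)) (fun p => ?_) ?_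
  · exact tendsto_Er H s p.2
  · filter_upwards [eventually_gt_atTop 0] with L hL p
    have hσ : 0 ≤ (s : ℝ) / L := by positivity
    exact Er_bound H hσ p.2

/-- summability of a bounded weight against a power -/
lemma summable_w (H : HB b A w C θ) {v : ℕ} (h1 : 1 ≤ v) (h2 : v ≤ A) {t : ℝ} (ht : 0 < t) :
    Summable fun p : Nat.Primes => w v p * ((p : ℕ) : ℝ) ^ (-(1 + t) : ℝ) := by
  refine Summable.of_nonneg_of_le (fun p => ?_) (fun p => ?_) ((summable_1s ht).mul_left C)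
  · exact mul_nonneg (H.lo p p.2 v h1 h2).1 (by positivity)
  · exact mul_le_mul_of_nonneg_right (H.lo p p.2 v h1 h2).2.1 (by positivity)

/-- the limit of the main parts -/
lemma tendsto_main (H : HB b A w C θ) (a : ℕ → ℝ) (hM : ∀ v : ℕ, 1 ≤ v → v ≤ A → Mean (w v) (a v))
    {s : ℕ} (hs : 1 ≤ s) :
    Tendsto (fun L : ℝ => ∑ v ∈ Finset.Icc 1 A, ((∑' p : Nat.Primes,
      w v p * ((p : ℝ) ^ (-(1 + (v * s : ℕ) / L) : ℝ) - (p : ℝ) ^ (-(1 + 1 / L) : ℝ))) -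
      ∑' p : Nat.Primes, w v p * ((p : ℝ) ^ (-(1 + (v : ℕ) / L) : ℝ) - (p : ℝ) ^ (-(1 + 1 / L) : ℝ))))
      atTop (𝓝 (-((∑ v ∈ Finset.Icc 1 A, a v) * Real.log s))) := by
  have h1 : -((∑ v ∈ Finset.Icc 1 A, a v) * Real.log s) =
      ∑ v ∈ Finset.Icc 1 A, (-(a v * Real.log (v * s : ℕ)) - -(a v * Real.log v)) := by
    rw [Finset.sum_mul, ← Finset.sum_neg_distrib]
    refine Finset.sum_congr rfl fun v hv => ?_
    have hv1 := (Finset.mem_Icc.1 hv).1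
    have e1 : (v : ℝ) ≠ 0 := by exact_mod_cast (by omega : v ≠ 0)
    have e2 : (s : ℝ) ≠ 0 := by exact_mod_cast (by omega : s ≠ 0)
    rw [Nat.cast_mul, Real.log_mul e1 e2]
    ring
  rw [h1]
  refine tendsto_finsetSum _ fun v hv => ?_
  obtain ⟨hv1, hv2⟩ := Finset.mem_Icc.1 hv
  exact (hM v hv1 hv2 (v * s) (Nat.mul_pos hv1 hs)).sub (hM v hv1 hv2 v hv1)

theorem pf_EUS : T_EUS := by
  intro b A w a C θ hb0 hb1 hmul ht0 ht1 hlo hhi hM
  have hC0 : 0 ≤ C := by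
    have h1 := hhi 2 Nat.prime_two (A + 1) (by omega)
    have h2 : 0 ≤ b (2 ^ (A + 1)) / ((2 : ℕ) : ℝ) ^ (A + 1) := div_nonneg (hb0 _) (by positivity)
    have h3 : 0 < (((2 : ℕ) : ℝ) ^ (-(3 / 2) : ℝ)) * θ ^ (A + 1) := by positivity
    have h4 := h2.trans h1
    rw [mul_assoc] at h4
    exact nonneg_of_mul_nonneg_left h4 h3
  have H : HB b A w C θ := ⟨hb0, hb1, hmul, ht0, ht1, hlo, hhi, hC0⟩
  refine ⟨fun σ hσ => ft_summable' H hσ, fun s hs => ?_⟩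
  have hs0 : (0 : ℝ) < s := by exact_mod_cast hs
  have h1 := (tendsto_main H a hM hs).add ((tendsto_sum_Er H s).sub (tendsto_sum_Er H 1))
  rw [sub_self, add_zero] at h1
  have h2 := (Real.continuous_exp.tendsto _).comp h1
  have h3 : Real.exp (-((∑ v ∈ Finset.Icc 1 A, a v) * Real.log s)) =
      (s : ℝ) ^ (-(∑ v ∈ Finset.Icc 1 A, a v)) := by
    rw [Real.rpow_def_of_pos hs0]
    congr 1
    ring
  rw [h3] at h2
  refine Tendsto.congr' ?_ h2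
  filter_upwards [eventually_gt_atTop 0] with L hL
  have hσ : 0 < (s : ℝ) / L := by positivity
  have hσ1 : 0 < (1 : ℝ) / L := by positivity
  obtain ⟨hp1, hl1⟩ := hasSum_log' H hσ
  obtain ⟨hp2, hl2⟩ := hasSum_log' H hσ1
  have hE : ∀ {σ : ℝ}, 0 ≤ σ → Summable fun p : Nat.Primes => Er b A w σ p := by
    intro σ hσ
    exact Summable.of_norm_bounded (summable_32.mul_left (C2 A C θ)) fun p => Er_bound H hσ p.2
  have hE1 := hE hσ.le
  have hE2 := hE hσ1.le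
  have hd := (hl1.sub hl2).tsum_eq
  simp only [Function.comp, Nat.cast_one]
  have e1 : (∑' k : ℕ, b k * (k : ℝ) ^ (-(1 + s / L) : ℝ)) = ∑' k, ft b (s / L) k := rfl
  have e2 : (∑' k : ℕ, b k * (k : ℝ) ^ (-(1 + 1 / L) : ℝ)) = ∑' k, ft b (1 / L) k := rfl
  rw [e1, e2, ← Real.exp_log (div_pos hp1 hp2), Real.log_div hp1.ne' hp2.ne', ← hd]
  congr 1
  rw [← hE1.tsum_sub hE2]
  have hw : ∀ v ∈ Finset.Icc 1 A, ∀ t : ℝ, 0 < t →
      Summable fun p : Nat.Primes => w v p * ((p : ℕ) : ℝ) ^ (-(1 + t) : ℝ) := by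
    intro v hv t ht
    exact summable_w H (Finset.mem_Icc.1 hv).1 (Finset.mem_Icc.1 hv).2 ht
  have h5 : ∀ v ∈ Finset.Icc 1 A, ((∑' p : Nat.Primes,
      w v p * ((p : ℝ) ^ (-(1 + (v * s : ℕ) / L) : ℝ) - (p : ℝ) ^ (-(1 + 1 / L) : ℝ))) -
      ∑' p : Nat.Primes, w v p * ((p : ℝ) ^ (-(1 + (v : ℕ) / L) : ℝ) - (p : ℝ) ^ (-(1 + 1 / L) : ℝ)))
      = ∑' p : Nat.Primes, (w v p * ((p : ℕ) : ℝ) ^ (-(1 + v * (s / L)) : ℝ) -
        w v p * ((p : ℕ) : ℝ) ^ (-(1 + v * (1 / L)) : ℝ)) := by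
    intro v hv
    have hv1 : (0 : ℝ) < v := by exact_mod_cast (Finset.mem_Icc.1 hv).1
    have f1 := hw v hv (v * (s / L)) (by positivity)
    have f2 := hw v hv (v * (1 / L)) (by positivity)
    have f3 := hw v hv (1 / L) hσ1
    have g1 : Summable fun p : Nat.Primes => w v p * ((p : ℝ) ^ (-(1 + (v * s : ℕ) / L) : ℝ) -
        (p : ℝ) ^ (-(1 + 1 / L) : ℝ)) := by
      refine (f1.sub f3).congr fun p => ?_
      rw [← mul_sub, Nat.cast_mul, mul_div_assoc]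
    have g2 : Summable fun p : Nat.Primes => w v p * ((p : ℝ) ^ (-(1 + (v : ℕ) / L) : ℝ) -
        (p : ℝ) ^ (-(1 + 1 / L) : ℝ)) := by
      refine (f2.sub f3).congr fun p => ?_
      rw [← mul_sub, mul_one_div]
    rw [← g1.tsum_sub g2]
    refine tsum_congr fun p => ?_
    rw [Nat.cast_mul, mul_div_assoc, mul_one_div]
    ring
  rw [Finset.sum_congr rfl h5, ← Summable.tsum_finsetSum fun v hv => ?_]
  · rw [← Summable.tsum_add _ (hE1.sub hE2)]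
    · refine tsum_congr fun p => ?_
      unfold Er Mp
      rw [Finset.sum_sub_distrib]
      ring
    · refine summable_sum fun v hv => ?_
      have hv1 : (0 : ℝ) < v := by exact_mod_cast (Finset.mem_Icc.1 hv).1
      exact (hw v hv (v * (s / L)) (by positivity)).sub (hw v hv (v * (1 / L)) (by positivity))
  · have hv1 : (0 : ℝ) < v := by exact_mod_cast (Finset.mem_Icc.1 hv).1
    exact (hw v hv (v * (s / L)) (by positivity)).sub (hw v hv (v * (1 / L)) (by positivity))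

end Pool.Agent.H27.RS
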